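import Mathlib
import Pool.Agent.L7h24.AV.Stm

/-!
# Project AP (helper24, MP_3aaefc_nt): from the von Mangoldt function to primes, lemmas
-/

set_option autoImplicit false

namespace Pool.Agent.L7h46.AV

open Finset Filter
open Pool.Agent.H373R2.T7 (pz Vz lamz mem_pz Vz_pos)
open Pool.Agent.L7h24.AV

/-- the proper prime powers are few -/
lemma pp_count (X : ℕ) : ((Icc 1 X).filter (fun n : ℕ => IsPrimePow n ∧ ¬ n.Prime)).card ≤
    (Nat.sqrt X + 1) * (Nat.log 2 X + 1) := by
  classical
  have hsub : (Icc 1 X).filter (fun n : ℕ => IsPrimePow n ∧ ¬ n.Prime) ⊆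
      ((range (Nat.sqrt X + 1)) ×ˢ (range (Nat.log 2 X + 1))).image
        (fun t : ℕ × ℕ => t.1 ^ t.2) := by
    intro n hn
    rw [mem_filter, mem_Icc] at hn
    obtain ⟨⟨h1, h2⟩, h3, h4⟩ := hn
    obtain ⟨p, k, hp, hk, rfl⟩ := h3
    have hp' : p.Prime := hp.nat_prime
    have hk2 : 2 ≤ k := by
      by_contra hcon
      have : k = 1 := by omega
      subst this
      rw [pow_one] at h4
      exact h4 hp'
    rw [mem_image]
    refine ⟨(p, k), ?_, rfl⟩
    rw [mem_product, mem_range, mem_range]
    constructor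
    · have h5 : p ^ 2 ≤ X := (Nat.pow_le_pow_right hp'.pos hk2).trans h2
      have : p ≤ Nat.sqrt X := by
        rw [Nat.le_sqrt]
        rw [sq] at h5
        exact h5
      exact Nat.lt_succ_of_le this
    · have h5 : 2 ^ k ≤ X := (Nat.pow_le_pow_left hp'.two_le k).trans h2
      have : k ≤ Nat.log 2 X := Nat.le_log_of_pow_le (by norm_num) h5
      exact Nat.lt_succ_of_le this
  refine (card_le_card hsub).trans (card_image_le.trans ?_)
  rw [card_product, card_range, card_range]

/-- a condition on one coordinate -/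
lemma box_count {k A B : ℕ} (j : Fin k) (P : ℕ × ℕ → Prop) [DecidablePred P] (M : ℝ)
    (hM : ∀ a ∈ Icc 1 A, (((Icc 1 B).filter (fun b => P (a, b))).card : ℝ) ≤ M) :
    (((Box k A B).filter (fun v => P (v j))).card : ℝ) ≤ ((A : ℝ) * B) ^ (k - 1) * (A * M) := by
  classical
  have h1 : (Box k A B).filter (fun v => P (v j)) =
      Fintype.piFinset (Function.update (fun _ : Fin k => Icc 1 A ×ˢ Icc 1 B) j
        ((Icc 1 A ×ˢ Icc 1 B).filter P)) := by
    ext v
    unfold Box
    rw [mem_filter, Fintype.mem_piFinset, Fintype.mem_piFinset]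
    constructor
    · rintro ⟨h1, h2⟩ l
      by_cases hl : l = j
      · subst hl
        rw [Function.update_self, mem_filter]
        exact ⟨h1 l, h2⟩
      · rw [Function.update_of_ne hl]
        exact h1 l
    · intro h
      have hj := h j
      rw [Function.update_self, mem_filter] at hj
      refine ⟨fun l => ?_, hj.2⟩
      by_cases hl : l = j
      · subst hl; exact hj.1
      · have := h l
        rwa [Function.update_of_ne hl] at this
  have h2 : (Fintype.piFinset (Function.update (fun _ : Fin k => Icc 1 A ×ˢ Icc 1 B) j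
        ((Icc 1 A ×ˢ Icc 1 B).filter P))).card =
      ((Icc 1 A ×ˢ Icc 1 B).filter P).card * (A * B) ^ (k - 1) := by
    rw [Fintype.card_piFinset, ← Finset.mul_prod_erase _ _ (mem_univ j), Function.update_self]
    congr 1
    rw [Finset.prod_congr rfl (g := fun _ => A * B) (fun l hl => by
      rw [Function.update_of_ne (Finset.ne_of_mem_erase hl), card_product, Nat.card_Icc,
        Nat.card_Icc]
      simp), Finset.prod_const, Finset.card_erase_of_mem (mem_univ j), Finset.card_univ,
      Fintype.card_fin]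
  have h3 : (((Icc 1 A ×ˢ Icc 1 B).filter P).card : ℝ) ≤ A * M := by
    rw [Finset.card_filter, Finset.sum_product]
    push_cast
    have h4 : ∀ a ∈ Icc 1 A, (∑ b ∈ Icc 1 B, if P (a, b) then (1 : ℝ) else 0) ≤ M := by
      intro a ha
      have := hM a ha
      rw [Finset.card_filter] at this
      push_cast at this
      exact this
    refine (Finset.sum_le_sum h4).trans ?_
    rw [Finset.sum_const, Nat.card_Icc, nsmul_eq_mul]
    simp
  rw [h1, h2]
  push_cast
  rw [mul_comm]
  exact mul_le_mul_of_nonneg_left h3 (by positivity)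

/-- a tuple without proper prime powers -/
lemma good_term {k : ℕ} {L δ : ℝ} (hL : 0 < L) (hδ : 0 ≤ δ) (hkδ : k * δ ≤ 1 / 4)
    (n : Fin k → ℕ) (hn1 : ∀ j, (1 - δ) * L ≤ Real.log (n j))
    (hn2 : ∀ j, Real.log (n j) ≤ (1 + δ) * L) (hpp : ∀ j, IsPrimePow (n j) → (n j).Prime) :
    |L ^ k * (if ∀ j, (n j).Prime then (1 : ℝ) else 0) -
      ∏ j, ArithmeticFunction.vonMangoldt (n j)| ≤
      4 * (k * δ) * ∏ j, ArithmeticFunction.vonMangoldt (n j) := by
  classical
  by_cases h : ∀ j, (n j).Prime
  · rw [if_pos h, mul_one]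
    have h1 : ∀ j, ArithmeticFunction.vonMangoldt (n j) = L * (1 + (Real.log (n j) / L - 1)) := by
      intro j
      rw [ArithmeticFunction.vonMangoldt_apply_prime (h j)]
      field_simp
      ring
    have h2 : ∏ j, ArithmeticFunction.vonMangoldt (n j) =
        L ^ k * ∏ j : Fin k, (1 + (Real.log (n j) / L - 1)) := by
      rw [Finset.prod_congr rfl fun j _ => h1 j, Finset.prod_mul_distrib, Finset.prod_const,
        Finset.card_univ, Fintype.card_fin]
    set Q := ∏ j : Fin k, (1 + (Real.log (n j) / L - 1)) with hQ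
    have h3 : |Q - 1| ≤ 2 * (k * δ) := by
      have e1 := Finset.norm_prod_one_add_sub_one_le (univ : Finset (Fin k))
        (fun j => Real.log (n j) / L - 1)
      rw [← hQ, Real.norm_eq_abs] at e1
      have e2 : ∑ j : Fin k, ‖Real.log (n j) / L - 1‖ ≤ k * δ := by
        have : ∀ j : Fin k, ‖Real.log (n j) / L - 1‖ ≤ δ := by
          intro j
          rw [Real.norm_eq_abs, abs_le]
          have a1 := hn1 j
          have a2 := hn2 j
          constructor
          · rw [le_sub_iff_add_le, le_div_iff₀ hL]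
            linarith
          · rw [sub_le_iff_le_add, div_le_iff₀ hL]
            linarith
        refine (Finset.sum_le_sum fun j _ => this j).trans ?_
        rw [Finset.sum_const, Finset.card_univ, Fintype.card_fin, nsmul_eq_mul]
      have e3 : Real.exp (k * δ) - 1 ≤ 2 * (k * δ) := by
        have hkδ0 : 0 ≤ k * δ := by positivity
        have := Real.abs_exp_sub_one_le (x := k * δ) (by rw [abs_of_nonneg hkδ0]; linarith)
        rw [abs_of_nonneg hkδ0] at this
        exact (le_abs_self _).trans this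
      have e4 : Real.exp (∑ j : Fin k, ‖Real.log (n j) / L - 1‖) ≤ Real.exp (k * δ) :=
        Real.exp_le_exp.2 e2
      linarith
    have hkδ0 : 0 ≤ k * δ := by positivity
    have h4 : 1 / 2 ≤ Q := by
      have := (abs_le.1 h3).1
      linarith
    have hLk : 0 < L ^ k := by positivity
    rw [h2]
    have e : L ^ k - L ^ k * Q = L ^ k * (1 - Q) := by ring
    rw [e, abs_mul, abs_of_pos hLk, abs_sub_comm]
    calc L ^ k * |Q - 1| ≤ L ^ k * (2 * (k * δ)) := mul_le_mul_of_nonneg_left h3 hLk.le
      _ ≤ L ^ k * (2 * (k * δ) * (2 * Q)) := by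
          apply mul_le_mul_of_nonneg_left _ hLk.le
          exact le_mul_of_one_le_right (by positivity) (by linarith)
      _ = 4 * (k * δ) * (L ^ k * Q) := by ring
  · rw [if_neg h, mul_zero]
    push Not at h
    obtain ⟨j, hj⟩ := h
    have h1 : ArithmeticFunction.vonMangoldt (n j) = 0 := by
      rw [ArithmeticFunction.vonMangoldt_eq_zero_iff]
      exact fun h' => hj (hpp j h')
    rw [Finset.prod_eq_zero (mem_univ j) h1]
    simp

/-- any tuple -/
lemma bad_term {k : ℕ} {L : ℝ} (hL : 0 ≤ L) (n : Fin k → ℕ)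
    (hn2 : ∀ j, Real.log (n j) ≤ 2 * L) :
    |L ^ k * (if ∀ j, (n j).Prime then (1 : ℝ) else 0) -
      ∏ j, ArithmeticFunction.vonMangoldt (n j)| ≤ (2 * L) ^ k := by
  have h1 : ∏ j, ArithmeticFunction.vonMangoldt (n j) ≤ (2 * L) ^ k := by
    calc ∏ j, ArithmeticFunction.vonMangoldt (n j) ≤ ∏ _j : Fin k, (2 * L) :=
          Finset.prod_le_prod (fun j _ => ArithmeticFunction.vonMangoldt_nonneg)
            (fun j _ => ArithmeticFunction.vonMangoldt_le_log.trans (hn2 j))
      _ = (2 * L) ^ k := by rw [Finset.prod_const, Finset.card_univ, Fintype.card_fin]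
  have h0 : 0 ≤ ∏ j, ArithmeticFunction.vonMangoldt (n j) :=
    Finset.prod_nonneg fun j _ => ArithmeticFunction.vonMangoldt_nonneg
  have h2 : L ^ k ≤ (2 * L) ^ k := pow_le_pow_left₀ hL (by linarith) k
  have h3 : 0 ≤ L ^ k := by positivity
  rw [abs_le]
  split_ifs
  · constructor <;> linarith
  · constructor <;> linarith

/-- powers of the logarithm -/
lemma log_small (m : ℕ) (c : ℝ) (hc : 0 < c) :
    ∀ᶠ B : ℕ in atTop, Real.log B ^ m ≤ c * √(B : ℝ) := by
  have h1 := (Real.isLittleO_pow_log_id_atTop (n := m)).bound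
    (show (0 : ℝ) < c / 2 ^ m by positivity)
  have h2 : Tendsto (fun B : ℕ => √(B : ℝ)) atTop atTop :=
    Real.tendsto_sqrt_atTop.comp tendsto_natCast_atTop_atTop
  filter_upwards [h2.eventually h1, eventually_ge_atTop 1] with B hB hB1
  have hB1' : (1 : ℝ) ≤ B := by exact_mod_cast hB1
  rw [id, Real.norm_eq_abs, Real.norm_eq_abs, abs_of_nonneg (Real.sqrt_nonneg _),
    Real.log_sqrt (by linarith), div_pow, abs_of_nonneg (by
      have := Real.log_nonneg hB1'
      positivity)] at hB
  have h3 : (0 : ℝ) < 2 ^ m := by positivity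
  rw [div_le_iff₀ h3] at hB
  calc Real.log B ^ m ≤ c / 2 ^ m * √(B : ℝ) * 2 ^ m := hB
    _ = c * √(B : ℝ) := by field_simp

end Pool.Agent.L7h46.AV
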