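import Mathlib
import Pool.Agent.L7h46.AV.PrmA

/-!
# Project AP (helper24, MP_3aaefc_nt): S_PRM, from the von Mangoldt function to primes
-/

set_option autoImplicit false

namespace Pool.Agent.L7h46.AV

open Finset Filter
open Pool.Agent.H373R2.T7 (pz Vz lamz mem_pz Vz_pos)
open Pool.Agent.L7h24.AV

lemma p_mono {i N : ℕ} (h : i ≤ N) : p i ≤ p N := by
  unfold p
  exact Nat.nth_monotone Nat.infinite_setOfPred_prime (by omega)

/-- the conditions on `B` -/
lemma ev_cond (k K D : ℕ) (ε δ : ℝ) (hδ : 0 < δ) : ∀ᶠ B : ℕ in atTop,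
    3 ≤ B ∧ 1 ≤ Real.log B ∧ 2 ^ D ≤ Real.log B ∧ ((k : ℝ) + 1) / Real.log 2 ≤ Real.log B ∧
    1 ≤ Real.log (Real.log B) ∧ 32 * k * 4 ^ k / ε ≤ Real.log B ∧
    Real.log (5 * K + 2) ≤ δ * Real.log B ∧ Real.log (5 * K + 2) ≤ Real.log B ∧
    (5 * (5 * K + 3)) * Real.log B ^ (4 * k + 1) ≤ √(B : ℝ) ∧
    4 * k * Real.log (Real.log B) ≤ δ * Real.log B := by
  have hlog : Tendsto (fun B : ℕ => Real.log (B : ℝ)) atTop atTop :=
    Real.tendsto_log_atTop.comp tendsto_natCast_atTop_atTop
  have e1 := log_small (4 * k + 1) (1 / (5 * (5 * K + 3))) (by positivity)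
  have e2 : ∀ᶠ B : ℕ in atTop, 4 * k * Real.log (Real.log B) ≤ δ * Real.log B := by
    have h1 := (Real.isLittleO_log_id_atTop).bound (show (0 : ℝ) < δ / (4 * (k + 1)) by positivity)
    filter_upwards [hlog.eventually h1, hlog.eventually_ge_atTop 1] with B hB hB1
    rw [id, Real.norm_eq_abs, Real.norm_eq_abs, abs_of_nonneg (by linarith : (0:ℝ) ≤ Real.log B)]
      at hB
    have h2 := (le_abs_self _).trans hB
    have h3 : 4 * (k : ℝ) * Real.log (Real.log B) ≤
        4 * k * (δ / (4 * (k + 1)) * Real.log B) :=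
      mul_le_mul_of_nonneg_left h2 (by positivity)
    refine h3.trans ?_
    have h4 : 4 * (k : ℝ) * (δ / (4 * (k + 1)) * Real.log B) =
        (k / (k + 1)) * (δ * Real.log B) := by field_simp
    rw [h4]
    have h5 : (k : ℝ) / (k + 1) ≤ 1 := by
      rw [div_le_one (by positivity)]; linarith
    have h6 : 0 ≤ δ * Real.log B := by positivity
    calc (k / (k + 1)) * (δ * Real.log B) ≤ 1 * (δ * Real.log B) :=
          mul_le_mul_of_nonneg_right h5 h6
      _ = _ := one_mul _
  filter_upwards [eventually_ge_atTop 3, hlog.eventually_ge_atTop 1,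
    hlog.eventually_ge_atTop (2 ^ D), hlog.eventually_ge_atTop (((k : ℝ) + 1) / Real.log 2),
    (Real.tendsto_log_atTop.comp hlog).eventually_ge_atTop 1,
    hlog.eventually_ge_atTop (32 * k * 4 ^ k / ε),
    hlog.eventually_ge_atTop (Real.log (5 * K + 2) / δ),
    hlog.eventually_ge_atTop (Real.log (5 * K + 2)), e1, e2] with B b1 b2 b3 b4 b5 b6 b7 b8 b9 b10
  refine ⟨b1, b2, b3, b4, b5, b6, ?_, b8, ?_, b10⟩
  · rw [div_le_iff₀ hδ] at b7
    linarith
  · have h0 : (0 : ℝ) < 5 * (5 * K + 3) := by positivity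
    have := mul_le_mul_of_nonneg_left b9 h0.le
    calc (5 * (5 * K + 3)) * Real.log B ^ (4 * k + 1) ≤
        (5 * (5 * K + 3)) * (1 / (5 * (5 * K + 3)) * √(B : ℝ)) := this
      _ = √(B : ℝ) := by field_simp

/-- the proper prime powers up to `(5 K + 2) B` -/
lemma pp_small {k K B : ℕ} (hB : 3 ≤ B) (h1 : 1 ≤ Real.log B)
    (h2 : Real.log (5 * K + 2) ≤ Real.log B)
    (h3 : (5 * (5 * K + 3)) * Real.log B ^ (4 * k + 1) ≤ √(B : ℝ)) :
    (((Icc 1 ((5 * K + 2) * B)).filter (fun n : ℕ => IsPrimePow n ∧ ¬ n.Prime)).card : ℝ) ≤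
      B / Real.log B ^ (4 * k) := by
  set X := (5 * K + 2) * B with hX
  have hBr : (3 : ℝ) ≤ B := by exact_mod_cast hB
  have hsB : 1 ≤ √(B : ℝ) := by
    rw [← Real.sqrt_one]
    exact Real.sqrt_le_sqrt (by linarith)
  have hsq : √(B : ℝ) * √(B : ℝ) = B := Real.mul_self_sqrt (by linarith)
  have hXr : (X : ℝ) = (5 * K + 2) * B := by rw [hX]; push_cast; ring
  have a1 : (Nat.sqrt X : ℝ) ≤ (5 * K + 2) * √(B : ℝ) := by
    refine Real.nat_sqrt_le_real_sqrt.trans ?_
    rw [hXr, Real.sqrt_mul (by positivity)]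
    apply mul_le_mul_of_nonneg_right _ (by positivity)
    rw [Real.sqrt_le_left (by positivity)]
    have : (1 : ℝ) ≤ 5 * K + 2 := by
      have : (0 : ℝ) ≤ K := Nat.cast_nonneg K
      linarith
    nlinarith
  have hlogX : Real.log X ≤ 2 * Real.log B := by
    rw [hXr, Real.log_mul (by positivity) (by linarith)]
    linarith
  have a2 : (Nat.log 2 X : ℝ) ≤ 4 * Real.log B := by
    have e1 := Real.natLog_le_logb X 2
    have e2 : Real.logb ((2 : ℕ) : ℝ) X ≤ 2 * Real.log X := by
      unfold Real.logb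
      rw [div_le_iff₀ (by push_cast; exact Real.log_pos (by norm_num))]
      have h5 := Real.log_two_gt_d9
      have h6 : 0 ≤ Real.log X := Real.log_natCast_nonneg X
      push_cast
      nlinarith
    linarith
  have hpp : (((Icc 1 X).filter (fun n : ℕ => IsPrimePow n ∧ ¬ n.Prime)).card : ℝ) ≤
      ((Nat.sqrt X : ℝ) + 1) * ((Nat.log 2 X : ℝ) + 1) := by
    exact_mod_cast pp_count X
  have hLk : 0 < Real.log B ^ (4 * k) := by positivity
  rw [le_div_iff₀ hLk]
  have h5 : ((Nat.sqrt X : ℝ) + 1) * ((Nat.log 2 X : ℝ) + 1) ≤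
      ((5 * K + 3) * √(B : ℝ)) * (5 * Real.log B) := by
    apply mul_le_mul
    · linarith
    · linarith
    · positivity
    · positivity
  calc (((Icc 1 X).filter (fun n : ℕ => IsPrimePow n ∧ ¬ n.Prime)).card : ℝ) *
      Real.log B ^ (4 * k)
      ≤ (((5 * K + 3) * √(B : ℝ)) * (5 * Real.log B)) * Real.log B ^ (4 * k) :=
        mul_le_mul_of_nonneg_right (hpp.trans h5) hLk.le
    _ = √(B : ℝ) * ((5 * (5 * K + 3)) * Real.log B ^ (4 * k + 1)) := by ring
    _ ≤ √(B : ℝ) * √(B : ℝ) := mul_le_mul_of_nonneg_left h3 (by positivity)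
    _ = B := hsq

lemma fin_sum {α : Type} (S : Finset α) (a b ψ l bd : α → ℝ) {η M W N2 T : ℝ} (hη0 : 0 ≤ η)
    (hη : η ≤ 1 / 2)
    (h1 : ∀ v ∈ S, |a v| ≤ η * ψ v + M * bd v) (hψ : ∀ v ∈ S, ψ v = b v + l v)
    (hb : ∑ v ∈ S, b v ^ 2 ≤ T) (hl : ∑ v ∈ S, l v ^ 2 ≤ W) (hbd : ∑ v ∈ S, bd v ^ 2 ≤ N2) :
    ∑ v ∈ S, (a v + b v) ^ 2 ≤ 4 * T + 8 * η ^ 2 * W + 4 * M ^ 2 * N2 := by
  have key : ∀ v ∈ S, (a v + b v) ^ 2 ≤
      4 * b v ^ 2 + 8 * η ^ 2 * l v ^ 2 + 4 * M ^ 2 * bd v ^ 2 := by
    intro v hv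
    have e1 : a v ^ 2 ≤ (η * ψ v + M * bd v) ^ 2 := by
      rw [← sq_abs (a v)]
      exact pow_le_pow_left₀ (abs_nonneg _) (h1 v hv) 2
    have e2 : (η * ψ v + M * bd v) ^ 2 ≤ 2 * (η * ψ v) ^ 2 + 2 * (M * bd v) ^ 2 := by
      nlinarith [sq_nonneg (η * ψ v - M * bd v)]
    have e3 : (η * ψ v) ^ 2 ≤ 2 * (η * b v) ^ 2 + 2 * (η * l v) ^ 2 := by
      rw [hψ v hv]
      nlinarith [sq_nonneg (η * b v - η * l v)]
    have e4 : (a v + b v) ^ 2 ≤ 2 * a v ^ 2 + 2 * b v ^ 2 := by
      nlinarith [sq_nonneg (a v - b v)]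
    have e5 : (η * b v) ^ 2 ≤ 1 / 4 * b v ^ 2 := by
      rw [mul_pow]
      apply mul_le_mul_of_nonneg_right _ (sq_nonneg _)
      nlinarith
    nlinarith
  refine (Finset.sum_le_sum key).trans ?_
  rw [Finset.sum_add_distrib, Finset.sum_add_distrib, ← Finset.mul_sum, ← Finset.mul_sum,
    ← Finset.mul_sum]
  have g2 : 8 * η ^ 2 * ∑ v ∈ S, l v ^ 2 ≤ 8 * η ^ 2 * W :=
    mul_le_mul_of_nonneg_left hl (by positivity)
  have g3 : 4 * M ^ 2 * ∑ v ∈ S, bd v ^ 2 ≤ 4 * M ^ 2 * N2 :=
    mul_le_mul_of_nonneg_left hbd (by positivity)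
  linarith

lemma dbl_mem {k A B : ℕ} {v : Fin k → ℕ × ℕ} (hv : v ∈ Box k A B) :
    (fun j => (2 * (v j).1, 2 * (v j).2)) ∈ Box k (2 * A) (2 * B) := by
  unfold Box at hv ⊢
  rw [Fintype.mem_piFinset] at hv ⊢
  intro j
  have := hv j
  rw [mem_product, mem_Icc, mem_Icc] at this ⊢
  simp only
  omega

theorem s_PRM (h : S_T) : S_PRM := by
  classical
  intro k K hk
  obtain ⟨D, hD⟩ := h k (3 * K + 1) hk
  refine ⟨D + 1, fun ε hε => ?_⟩
  obtain ⟨C, y0, hy⟩ := hD (ε / (8 * 4 ^ k)) (by positivity)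
  refine ⟨2 ^ k * |C|, y0, fun y hy0 => ?_⟩
  obtain ⟨B1, hB1⟩ := hy y hy0
  have hV : 0 < Vz y := Vz_pos y
  set η : ℝ := min (1 / 2) (√(ε / 32) * Vz y ^ k) with hη
  have hη0 : 0 < η := by
    rw [hη]
    have : 0 < √(ε / 32) := Real.sqrt_pos.2 (by positivity)
    positivity
  have hη1 : η ≤ 1 / 2 := min_le_left _ _
  have hη2 : 8 * η ^ 2 * ((Vz y ^ k)⁻¹) ^ 2 ≤ ε / 4 := by
    have h1 : η ≤ √(ε / 32) * Vz y ^ k := min_le_right _ _
    have h2 : η ^ 2 ≤ (√(ε / 32) * Vz y ^ k) ^ 2 := pow_le_pow_left₀ hη0.le h1 2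
    rw [mul_pow, Real.sq_sqrt (by positivity)] at h2
    have h3 : 0 < Vz y ^ k := by positivity
    calc 8 * η ^ 2 * ((Vz y ^ k)⁻¹) ^ 2
        ≤ 8 * (ε / 32 * (Vz y ^ k) ^ 2) * ((Vz y ^ k)⁻¹) ^ 2 := by gcongr
      _ = ε / 4 := by field_simp; norm_num
  set δ : ℝ := η / (4 * k) with hδ
  have hk0 : (0 : ℝ) < k := by exact_mod_cast hk
  have hδ0 : 0 < δ := by positivity
  have hkδ : k * δ = η / 4 := by rw [hδ]; field_simp
  obtain ⟨B2, hB2⟩ := eventually_atTop.1 (ev_cond k K D ε δ hδ0)
  refine ⟨max B1 B2, fun B hB A N hN hBAN hAN hpN g hg hcase I hI => ?_⟩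
  obtain ⟨b1, b2, b3, b4, b5, b6, b7, b8, b9, b10⟩ := hB2 B ((le_max_right _ _).trans hB)
  set L := Real.log B with hL
  have hL0 : 0 < L := by linarith
  have hBr : (3 : ℝ) ≤ B := by exact_mod_cast b1
  have hlog2 : 0 < Real.log 2 := Real.log_pos (by norm_num)
  have hlog2' : Real.log 2 ≤ 1 := by
    have := Real.log_two_lt_d9
    linarith
  have hcast : ((2 * B : ℕ) : ℝ) = 2 * B := by push_cast; ring
  have hlog2B : Real.log ((2 * B : ℕ) : ℝ) = Real.log 2 + L := by
    rw [hcast, Real.log_mul (by norm_num) (by linarith)]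
  have hl1 : L ≤ Real.log ((2 * B : ℕ) : ℝ) := by linarith
  have hl2 : Real.log ((2 * B : ℕ) : ℝ) ≤ 2 * L := by linarith
  -- application of `S_T`
  set s : Fin k → ℕ → ℕ := fun j i => p i + 2 * g j i with hs
  have hT := hB1 (2 * B) (by have := (le_max_left _ _).trans hB; omega) (2 * A) N
    (by
      calc C * Real.log ((2 * B : ℕ) : ℝ) ^ k ≤ |C| * Real.log ((2 * B : ℕ) : ℝ) ^ k :=
            mul_le_mul_of_nonneg_right (le_abs_self C) (by
              have : 0 ≤ Real.log ((2 * B : ℕ) : ℝ) := by linarith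
              positivity)
        _ ≤ |C| * (2 * L) ^ k := by
            apply mul_le_mul_of_nonneg_left _ (abs_nonneg C)
            exact pow_le_pow_left₀ (by linarith) hl2 k
        _ = 2 ^ k * |C| * L ^ k := by rw [mul_pow]; ring
        _ ≤ N := hN)
    (by
      push_cast
      have h1 : L ^ K ≤ Real.log (2 * (B : ℝ)) ^ (3 * K + 1) := by
        rw [hcast] at hl1
        calc L ^ K ≤ Real.log (2 * (B : ℝ)) ^ K := pow_le_pow_left₀ hL0.le hl1 K
          _ ≤ Real.log (2 * (B : ℝ)) ^ (3 * K + 1) :=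
              pow_le_pow_right₀ (by linarith) (by omega)
      calc 2 * (B : ℝ) ≤ 2 * (A * N * L ^ K) := by linarith
        _ = 2 * A * N * L ^ K := by ring
        _ ≤ 2 * A * N * Real.log (2 * (B : ℝ)) ^ (3 * K + 1) :=
            mul_le_mul_of_nonneg_left h1 (by positivity))
    s
    (by
      intro j i hi
      have h1 := hg j i hi
      rw [mem_Icc] at hi
      have h2 : p i ≤ K * B := (p_mono hi.2).trans hpN
      have h3 : A * i ≤ K * B := (Nat.mul_le_mul_left A hi.2).trans hAN
      have h4 : 2 * A * i = 2 * (A * i) := by ring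
      have h5 : (3 * K + 1) * (2 * B) = 6 * (K * B) + 2 * B := by ring
      simp only [hs]
      rw [h4, h5]
      omega)
    (by
      rcases hcase with hc | hc
      · left
        have h1 : Real.log ((2 * B : ℕ) : ℝ) ^ D ≤ (2 * L) ^ D :=
          pow_le_pow_left₀ (by linarith) hl2 D
        have h2 : (2 * L) ^ D ≤ L ^ (D + 1) := by
          rw [mul_pow, pow_succ, mul_comm]
          exact mul_le_mul_of_nonneg_left b3 (by positivity)
        have h3 : (A : ℝ) ≤ ((2 * A : ℕ) : ℝ) := by push_cast; linarith [Nat.cast_nonneg (α := ℝ) A]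
        exact (h1.trans h2).trans (hc.trans h3)
      · right
        refine ⟨?_, ?_⟩
        · set l := Real.log L with hl
          have e1 : Real.log (Real.log ((2 * B : ℕ) : ℝ)) ≤ l * (1 + 1 / L) := by
            rw [hlog2B]
            have e2 : Real.log 2 + L ≤ L * (1 + 1 / L) := by
              have : L * (1 + 1 / L) = L + 1 := by field_simp
              rw [this]; linarith
            have e3 : Real.log (Real.log 2 + L) ≤ Real.log (L * (1 + 1 / L)) :=
              Real.log_le_log (by linarith) e2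
            rw [Real.log_mul hL0.ne' (by positivity)] at e3
            have e4 : Real.log (1 + 1 / L) ≤ 1 / L := by
              have := Real.log_le_sub_one_of_pos (show 0 < 1 + 1 / L by positivity)
              linarith
            have e5 : (1 : ℝ) / L ≤ l * (1 / L) := le_mul_of_one_le_left (by positivity) b5
            have e6 : l * (1 + 1 / L) = l + l * (1 / L) := by ring
            rw [e6]
            linarith
          have e7 : 0 ≤ Real.log (Real.log ((2 * B : ℕ) : ℝ)) := by
            apply Real.log_nonneg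
            linarith
          have e8 : (1 + 1 / L) ^ (k + 1) ≤ 2 := by
            have f1 : 1 + 1 / L ≤ Real.exp (1 / L) := by
              have := Real.add_one_le_exp (1 / L)
              linarith
            have f2 : (1 + 1 / L) ^ (k + 1) ≤ Real.exp (1 / L) ^ (k + 1) :=
              pow_le_pow_left₀ (by positivity) f1 _
            rw [← Real.exp_nat_mul] at f2
            refine f2.trans ?_
            rw [← Real.le_log_iff_exp_le (by norm_num)]
            push_cast
            rw [div_le_iff₀ hlog2] at b4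
            rw [mul_one_div, div_le_iff₀ hL0]
            linarith
          calc Real.log (Real.log ((2 * B : ℕ) : ℝ)) ^ (k + 1) ≤ (l * (1 + 1 / L)) ^ (k + 1) :=
                pow_le_pow_left₀ e7 e1 _
            _ = l ^ (k + 1) * (1 + 1 / L) ^ (k + 1) := mul_pow _ _ _
            _ ≤ l ^ (k + 1) * 2 := mul_le_mul_of_nonneg_left e8 (by positivity)
            _ ≤ A * 2 := mul_le_mul_of_nonneg_right hc.1 (by norm_num)
            _ = ((2 * A : ℕ) : ℝ) := by push_cast; ring
        · intro j i hi i' hi' hii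
          have h1 := hc.2 j hi hi' hii
          have h2 := p_mono hii
          simp only [hs]
          omega)
    I hI
  -- the functions
  set ψ : (Fin k → ℕ × ℕ) → ℝ := fun v =>
    ∑ i ∈ I, ∏ j, ArithmeticFunction.vonMangoldt (val g v j i) with hψd
  set l : (Fin k → ℕ × ℕ) → ℝ := fun v => ∑ i ∈ I, ∏ j, lamz y (val g v j i) with hld
  set W : ℝ := ((A : ℝ) * B) ^ k with hW
  have hW0 : 0 ≤ W := by positivity
  have harg : ∀ (v : Fin k → ℕ × ℕ) (j : Fin k) (i : ℕ),
      arg s (fun j => (2 * (v j).1, 2 * (v j).2)) j i = val g v j i := by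
    intro v j i
    unfold arg Pool.Agent.L7h24.AV.val
    simp only [hs]
    ring
  have hTb : ∑ v ∈ Box k A B, (ψ v - l v) ^ 2 ≤ ε / 8 * (W * N ^ 2) := by
    have h1 : ∑ v ∈ Box k A B, (ψ v - l v) ^ 2 =
        ∑ v ∈ (Box k A B).image (fun v j => (2 * (v j).1, 2 * (v j).2)),
          (∑ i ∈ I, (∏ j, ArithmeticFunction.vonMangoldt (arg s v j i) -
            ∏ j, lamz y (arg s v j i))) ^ 2 := by
      rw [Finset.sum_image]
      · refine Finset.sum_congr rfl fun v _ => ?_
        rw [Finset.sum_sub_distrib]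
        simp only [harg, hψd, hld]
      · intro v _ v' _ hvv
        funext j
        have := congrFun hvv j
        simp only [Prod.mk.injEq] at this
        exact Prod.ext (by omega) (by omega)
    rw [h1]
    have h2 : ∑ v ∈ (Box k A B).image (fun v j => (2 * (v j).1, 2 * (v j).2)),
          (∑ i ∈ I, (∏ j, ArithmeticFunction.vonMangoldt (arg s v j i) -
            ∏ j, lamz y (arg s v j i))) ^ 2 ≤
        ∑ v ∈ Box k (2 * A) (2 * B), (∑ i ∈ I, (∏ j, ArithmeticFunction.vonMangoldt (arg s v j i) -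
            ∏ j, lamz y (arg s v j i))) ^ 2 := by
      apply Finset.sum_le_sum_of_subset_of_nonneg
      · intro v' hv'
        obtain ⟨v, hv, rfl⟩ := mem_image.1 hv'
        exact dbl_mem hv
      · intro _ _ _
        positivity
    refine h2.trans (hT.trans (le_of_eq ?_))
    rw [hW]
    push_cast
    have h4 : (2 * (A : ℝ) * (2 * B)) ^ k = 4 ^ k * (A * B) ^ k := by
      rw [← mul_pow]; congr 1; ring
    rw [h4]
    field_simp
  -- `l` and `loc`
  have hlloc : ∀ v, l v = ((loc y I g v).card : ℝ) * (Vz y ^ k)⁻¹ := by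
    intro v
    have hterm : ∀ i ∈ I, ∏ j, lamz y (val g v j i) =
        if ∀ j, (val g v j i).Coprime (primorial y) then (Vz y ^ k)⁻¹ else 0 := by
      intro i _
      have hcop : ∀ n : ℕ, (n.Coprime (primorial y)) ↔ ∀ q ∈ pz y, ¬ q ∣ n := by
        intro n
        unfold primorial
        rw [Nat.coprime_prod_right_iff]
        constructor
        · intro h q hq hqn
          obtain ⟨h1, h2⟩ := mem_pz.1 hq
          have := h q (by rw [mem_filter, mem_range]; exact ⟨by omega, h2⟩)
          exact h2.one_lt.ne' (Nat.eq_one_of_dvd_coprimes this hqn dvd_rfl)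
        · intro h q hq
          rw [mem_filter, mem_range] at hq
          exact ((Nat.Prime.coprime_iff_not_dvd hq.2).2 (h q (mem_pz.2 ⟨by omega, hq.2⟩))).symm
      have hlz : ∀ n : ℕ, lamz y n = if n.Coprime (primorial y) then (Vz y)⁻¹ else 0 := by
        intro n
        unfold lamz
        simp only [hcop n]
      by_cases hall : ∀ j, (val g v j i).Coprime (primorial y)
      · rw [if_pos hall, Finset.prod_congr rfl (g := fun _ => (Vz y)⁻¹) (fun j _ => by
          rw [hlz, if_pos (hall j)]), Finset.prod_const, Finset.card_univ, Fintype.card_fin,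
          inv_pow]
      · rw [if_neg hall]
        push Not at hall
        obtain ⟨j, hj⟩ := hall
        exact Finset.prod_eq_zero (mem_univ j) (by rw [hlz, if_neg hj])
    simp only [hld]
    rw [Finset.sum_congr rfl hterm]
    unfold loc
    rw [← Finset.sum_filter, Finset.sum_const, nsmul_eq_mul]
  have hIcard : (I.card : ℝ) ≤ N := by
    have := card_le_card hI
    rw [Nat.card_Icc] at this
    exact_mod_cast (by omega : I.card ≤ N)
  have hlle : ∀ v, |l v| ≤ N * (Vz y ^ k)⁻¹ := by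
    intro v
    rw [hlloc v, abs_of_nonneg (by positivity)]
    apply mul_le_mul_of_nonneg_right _ (by positivity)
    have : (loc y I g v).card ≤ I.card := by unfold loc; exact card_filter_le _ _
    have h2 : ((loc y I g v).card : ℝ) ≤ I.card := by exact_mod_cast this
    exact h2.trans hIcard
  have hBoxcard : ((Box k A B).card : ℝ) = W := by
    unfold Box
    rw [Fintype.card_piFinset, Finset.prod_const, card_product, Nat.card_Icc, Nat.card_Icc,
      Finset.card_univ, Fintype.card_fin, hW]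
    push_cast
    simp
  have hlsum : ∑ v ∈ Box k A B, l v ^ 2 ≤ W * (N ^ 2 * ((Vz y ^ k)⁻¹) ^ 2) := by
    calc ∑ v ∈ Box k A B, l v ^ 2 ≤ ∑ _v ∈ Box k A B, (N * (Vz y ^ k)⁻¹) ^ 2 := by
          refine Finset.sum_le_sum fun v _ => ?_
          rw [← sq_abs]
          exact pow_le_pow_left₀ (abs_nonneg _) (hlle v) 2
      _ = W * (N ^ 2 * ((Vz y ^ k)⁻¹) ^ 2) := by
          rw [Finset.sum_const, nsmul_eq_mul, hBoxcard, mul_pow]
  -- the bad indices
  set P : ℕ → Fin k → ℕ × ℕ → Prop := fun i j t =>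
    ((p i + 2 * (g j i + t.1 * i + t.2) : ℕ) : ℝ) ≤ B / L ^ (4 * k) ∨
      (IsPrimePow (p i + 2 * (g j i + t.1 * i + t.2)) ∧
        ¬ (p i + 2 * (g j i + t.1 * i + t.2)).Prime) with hP
  set bd : (Fin k → ℕ × ℕ) → ℝ := fun v => ((I.filter (fun i => ∃ j, P i j (v j))).card : ℝ)
    with hbd
  have hvle : ∀ i ∈ I, ∀ j : Fin k, ∀ a ∈ Icc 1 A, ∀ b ∈ Icc 1 B,
      p i + 2 * (g j i + a * i + b) ≤ (5 * K + 2) * B := by
    intro i hi j a ha b hb
    have hi' := hI hi
    have h1 := hg j i hi'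
    rw [mem_Icc] at ha hb hi'
    have h2 : p i ≤ K * B := (p_mono hi'.2).trans hpN
    have h3 : a * i ≤ K * B := (Nat.mul_le_mul ha.2 hi'.2).trans hAN
    have h5 : (5 * K + 2) * B = 5 * (K * B) + 2 * B := by ring
    rw [h5]
    omega
  have hcount : ∀ i ∈ I, ∀ j : Fin k, (((Box k A B).filter (fun v => P i j (v j))).card : ℝ) ≤
      2 * W / L ^ (4 * k) := by
    intro i hi j
    have h1 := box_count (A := A) (B := B) j (P i j) (2 * B / L ^ (4 * k)) (by
      intro a ha
      have hsub : (Icc 1 B).filter (fun b => P i j (a, b)) ⊆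
          (Icc 1 ⌊(B : ℝ) / L ^ (4 * k)⌋₊) ∪
          (Icc 1 B).filter (fun b => p i + 2 * (g j i + a * i + b) ∈
            (Icc 1 ((5 * K + 2) * B)).filter (fun n : ℕ => IsPrimePow n ∧ ¬ n.Prime)) := by
        intro b hb
        rw [mem_filter] at hb
        obtain ⟨hb1, hb2⟩ := hb
        rcases hb2 with h2 | h2
        · apply mem_union_left
          rw [mem_Icc] at hb1 ⊢
          refine ⟨hb1.1, Nat.le_floor ?_⟩
          refine le_trans ?_ h2
          simp only
          exact_mod_cast (by omega : b ≤ p i + 2 * (g j i + a * i + b))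
        · apply mem_union_right
          rw [mem_filter, mem_filter, mem_Icc]
          have h3 := hvle i hi j a ha b hb1
          rw [mem_Icc] at hb1
          exact ⟨hb1, mem_Icc.2 ⟨by omega, h3⟩, h2⟩
      have h2 : (((Icc 1 B).filter (fun b => p i + 2 * (g j i + a * i + b) ∈
            (Icc 1 ((5 * K + 2) * B)).filter (fun n : ℕ => IsPrimePow n ∧ ¬ n.Prime))).card : ℝ) ≤
          B / L ^ (4 * k) := by
        refine le_trans ?_ (pp_small (k := k) b1 b2 b8 b9)
        apply Nat.cast_le.2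
        apply card_le_card_of_injOn (fun b => p i + 2 * (g j i + a * i + b))
        · intro b hb
          exact (mem_filter.1 hb).2
        · intro b _ b' _ hbb
          simp only at hbb
          omega
      have h3 : ((Icc 1 ⌊(B : ℝ) / L ^ (4 * k)⌋₊).card : ℝ) ≤ B / L ^ (4 * k) := by
        rw [Nat.card_Icc, Nat.add_sub_cancel]
        exact Nat.floor_le (by positivity)
      have h4 : (((Icc 1 B).filter (fun b => P i j (a, b))).card : ℝ) ≤
          ((Icc 1 ⌊(B : ℝ) / L ^ (4 * k)⌋₊).card : ℝ) +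
          (((Icc 1 B).filter (fun b => p i + 2 * (g j i + a * i + b) ∈
            (Icc 1 ((5 * K + 2) * B)).filter
              (fun n : ℕ => IsPrimePow n ∧ ¬ n.Prime))).card : ℝ) := by
        exact_mod_cast (card_le_card hsub).trans (card_union_le _ _)
      have h5 : 2 * (B : ℝ) / L ^ (4 * k) = B / L ^ (4 * k) + B / L ^ (4 * k) := by ring
      rw [h5]
      linarith)
    refine h1.trans (le_of_eq ?_)
    have h6 : W = ((A : ℝ) * B) ^ (k - 1) * (A * B) := by
      rw [hW, ← pow_succ]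
      congr 1
      omega
    rw [h6]
    ring
  have hbdsum : ∑ v ∈ Box k A B, bd v ^ 2 ≤ N ^ 2 * (k * (2 * W / L ^ (4 * k))) := by
    have h1 : ∀ v ∈ Box k A B, bd v ^ 2 ≤ N * bd v := by
      intro v _
      rw [sq]
      apply mul_le_mul_of_nonneg_right _ (Nat.cast_nonneg _)
      have : (I.filter (fun i => ∃ j, P i j (v j))).card ≤ I.card := card_filter_le _ _
      have h2 : bd v ≤ I.card := by
        simp only [hbd]
        exact_mod_cast this
      exact h2.trans hIcard
    have h2 : ∑ v ∈ Box k A B, bd v ≤ N * (k * (2 * W / L ^ (4 * k))) := by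
      have h3 : ∑ v ∈ Box k A B, bd v =
          ∑ i ∈ I, (((Box k A B).filter (fun v => ∃ j, P i j (v j))).card : ℝ) := by
        simp only [hbd, Finset.card_filter]
        push_cast
        rw [Finset.sum_comm]
      rw [h3]
      have h4 : ∀ i ∈ I, (((Box k A B).filter (fun v => ∃ j, P i j (v j))).card : ℝ) ≤
          k * (2 * W / L ^ (4 * k)) := by
        intro i hi
        have h5 : (Box k A B).filter (fun v => ∃ j, P i j (v j)) ⊆
            univ.biUnion (fun j : Fin k => (Box k A B).filter (fun v => P i j (v j))) := by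
          intro v hv
          rw [mem_filter] at hv
          obtain ⟨h6, j, h7⟩ := hv
          rw [mem_biUnion]
          exact ⟨j, mem_univ _, mem_filter.2 ⟨h6, h7⟩⟩
        have h6 : (((Box k A B).filter (fun v => ∃ j, P i j (v j))).card : ℝ) ≤
            ∑ j : Fin k, (((Box k A B).filter (fun v => P i j (v j))).card : ℝ) := by
          exact_mod_cast (card_le_card h5).trans card_biUnion_le
        refine h6.trans ((Finset.sum_le_sum fun j _ => hcount i hi j).trans (le_of_eq ?_))
        rw [Finset.sum_const, Finset.card_univ, Fintype.card_fin, nsmul_eq_mul]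
      refine (Finset.sum_le_sum h4).trans ?_
      rw [Finset.sum_const, nsmul_eq_mul]
      exact mul_le_mul_of_nonneg_right hIcard (by positivity)
    calc ∑ v ∈ Box k A B, bd v ^ 2 ≤ ∑ v ∈ Box k A B, N * bd v := Finset.sum_le_sum h1
      _ = N * ∑ v ∈ Box k A B, bd v := by rw [Finset.mul_sum]
      _ ≤ N * (N * (k * (2 * W / L ^ (4 * k)))) := mul_le_mul_of_nonneg_left h2 (by positivity)
      _ = _ := by ring
  -- the pointwise bound
  have hpoint : ∀ v ∈ Box k A B,
      |L ^ k * ((hits I g v).card : ℝ) - ψ v| ≤ η * ψ v + (2 * L) ^ k * bd v := by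
    intro v hv
    have hv' : ∀ j, (v j).1 ∈ Icc 1 A ∧ (v j).2 ∈ Icc 1 B := by
      unfold Box at hv
      rw [Fintype.mem_piFinset] at hv
      exact fun j => mem_product.1 (hv j)
    have h1 : L ^ k * ((hits I g v).card : ℝ) - ψ v = ∑ i ∈ I,
        (L ^ k * (if ∀ j, (val g v j i).Prime then (1 : ℝ) else 0) -
          ∏ j, ArithmeticFunction.vonMangoldt (val g v j i)) := by
      rw [Finset.sum_sub_distrib, ← Finset.mul_sum]
      unfold hits
      rw [Finset.card_filter]
      push_cast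
      rfl
    rw [h1]
    refine (Finset.abs_sum_le_sum_abs _ _).trans ?_
    have h2 : ∀ i ∈ I, |L ^ k * (if ∀ j, (val g v j i).Prime then (1 : ℝ) else 0) -
          ∏ j, ArithmeticFunction.vonMangoldt (val g v j i)| ≤
        η * (∏ j, ArithmeticFunction.vonMangoldt (val g v j i)) +
          (2 * L) ^ k * (if ∃ j, P i j (v j) then 1 else 0) := by
      intro i hi
      have hpos : ∀ j, 1 ≤ val g v j i := by
        intro j
        have := (mem_Icc.1 (hv' j).2).1
        unfold Pool.Agent.L7h24.AV.val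
        omega
      have hlogle : ∀ j, Real.log (val g v j i) ≤ Real.log (5 * K + 2) + L := by
        intro j
        have h3 := hvle i hi j _ (hv' j).1 _ (hv' j).2
        have h4 : ((val g v j i : ℕ) : ℝ) ≤ (5 * K + 2) * B := by
          have : val g v j i ≤ (5 * K + 2) * B := h3
          exact_mod_cast this
        rw [hL, ← Real.log_mul (by positivity) (by linarith)]
        exact Real.log_le_log (by exact_mod_cast hpos j) h4
      have hprod0 : 0 ≤ ∏ j, ArithmeticFunction.vonMangoldt (val g v j i) :=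
        Finset.prod_nonneg fun j _ => ArithmeticFunction.vonMangoldt_nonneg
      by_cases hbad : ∃ j, P i j (v j)
      · rw [if_pos hbad, mul_one]
        have h3 := bad_term hL0.le (fun j => val g v j i) (fun j => (hlogle j).trans (by linarith))
        have h4 : 0 ≤ η * (∏ j, ArithmeticFunction.vonMangoldt (val g v j i)) := by positivity
        linarith
      · rw [if_neg hbad, mul_zero, add_zero]
        push Not at hbad
        have h3 : ∀ j, ¬ (((val g v j i : ℕ) : ℝ) ≤ B / L ^ (4 * k)) ∧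
            (IsPrimePow (val g v j i) → (val g v j i).Prime) := by
          intro j
          have h4 := hbad j
          simp only [hP, not_or, not_and, not_not] at h4
          exact h4
        have h5 := good_term hL0 hδ0.le (by rw [hkδ]; linarith) (fun j => val g v j i)
          (fun j => by
            have h6 := not_le.1 (h3 j).1
            have h7 : Real.log (B / L ^ (4 * k)) ≤ Real.log (val g v j i) :=
              Real.log_le_log (by positivity) h6.le
            rw [Real.log_div (by linarith) (by positivity), Real.log_pow] at h7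
            push_cast at h7
            rw [← hL] at h7
            have e : (1 - δ) * L = L - δ * L := by ring
            rw [e]
            linarith)
          (fun j => by
            have h6 := hlogle j
            have e : (1 + δ) * L = L + δ * L := by ring
            rw [e]
            linarith) (fun j => (h3 j).2)
        rw [hkδ] at h5
        have e : 4 * (η / 4) = η := by ring
        rw [e] at h5
        exact h5
    refine (Finset.sum_le_sum h2).trans (le_of_eq ?_)
    rw [Finset.sum_add_distrib, ← Finset.mul_sum, ← Finset.mul_sum]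
    simp only [hψd, hbd, Finset.card_filter]
    push_cast
    rfl
  -- assembly
  have hfin := fin_sum (Box k A B) (fun v => L ^ k * ((hits I g v).card : ℝ) - ψ v)
    (fun v => ψ v - l v) ψ l bd hη0.le hη1 hpoint (fun v _ => by ring) hTb hlsum hbdsum
  have hLk : 0 < L ^ k := by positivity
  have hsimp : ∑ v ∈ Box k A B, (((hits I g v).card : ℝ) -
      (loc y I g v).card / (Vz y * L) ^ k) ^ 2 = (1 / (L ^ k) ^ 2) *
      ∑ v ∈ Box k A B, ((L ^ k * ((hits I g v).card : ℝ) - ψ v) + (ψ v - l v)) ^ 2 := by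
    rw [Finset.mul_sum]
    refine Finset.sum_congr rfl fun v _ => ?_
    rw [hlloc v, mul_pow]
    field_simp
    ring
  rw [hsimp]
  have hX : 4 * (ε / 8 * (W * N ^ 2)) + 8 * η ^ 2 * (W * (N ^ 2 * ((Vz y ^ k)⁻¹) ^ 2)) +
      4 * ((2 * L) ^ k) ^ 2 * (N ^ 2 * (k * (2 * W / L ^ (4 * k)))) ≤ ε * (W * N ^ 2) := by
    have hWN : 0 ≤ W * (N : ℝ) ^ 2 := by positivity
    have e1 : 8 * η ^ 2 * (W * (N ^ 2 * ((Vz y ^ k)⁻¹) ^ 2)) ≤ ε / 4 * (W * N ^ 2) := by
      have := mul_le_mul_of_nonneg_right hη2 hWN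
      calc 8 * η ^ 2 * (W * (N ^ 2 * ((Vz y ^ k)⁻¹) ^ 2)) =
          8 * η ^ 2 * ((Vz y ^ k)⁻¹) ^ 2 * (W * N ^ 2) := by ring
        _ ≤ _ := this
    have e2 : 4 * ((2 * L) ^ k) ^ 2 * (k * (2 / L ^ (4 * k))) ≤ ε / 4 := by
      have f1 : ((2 * L) ^ k) ^ 2 = 4 ^ k * L ^ (2 * k) := by
        rw [mul_pow, mul_pow, ← pow_mul, ← pow_mul, mul_comm k 2, pow_mul 2 2 k]
        norm_num
      have f2 : L ^ (4 * k) = L ^ (2 * k) * L ^ (2 * k) := by
        rw [← pow_add]; congr 1; ring
      have f3 : L ≤ L ^ (2 * k) := by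
        calc L = L ^ 1 := (pow_one L).symm
          _ ≤ L ^ (2 * k) := pow_le_pow_right₀ b2 (by omega)
      have f4 : 0 < L ^ (2 * k) := by positivity
      have f5 : 32 * (k : ℝ) * 4 ^ k ≤ ε * L ^ (2 * k) := by
        rw [div_le_iff₀ hε] at b6
        calc 32 * (k : ℝ) * 4 ^ k ≤ L * ε := b6
          _ ≤ L ^ (2 * k) * ε := mul_le_mul_of_nonneg_right f3 hε.le
          _ = _ := mul_comm _ _
      rw [f1, f2]
      have f6 : 4 * (4 ^ k * L ^ (2 * k)) * (k * (2 / (L ^ (2 * k) * L ^ (2 * k)))) =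
          (8 * k * 4 ^ k) / L ^ (2 * k) := by field_simp; ring
      rw [f6, div_le_iff₀ f4]
      linarith
    have e3 : 4 * ((2 * L) ^ k) ^ 2 * (N ^ 2 * (k * (2 * W / L ^ (4 * k)))) ≤
        ε / 4 * (W * N ^ 2) := by
      have := mul_le_mul_of_nonneg_right e2 hWN
      calc 4 * ((2 * L) ^ k) ^ 2 * (N ^ 2 * (k * (2 * W / L ^ (4 * k)))) =
          4 * ((2 * L) ^ k) ^ 2 * (k * (2 / L ^ (4 * k))) * (W * N ^ 2) := by ring
        _ ≤ _ := this
    linarith
  calc 1 / (L ^ k) ^ 2 *
      ∑ v ∈ Box k A B, ((L ^ k * ((hits I g v).card : ℝ) - ψ v) + (ψ v - l v)) ^ 2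
      ≤ 1 / (L ^ k) ^ 2 * (ε * (W * N ^ 2)) :=
        mul_le_mul_of_nonneg_left (hfin.trans hX) (by positivity)
    _ = ε * (W * (N / L ^ k) ^ 2) := by
        rw [div_pow]
        field_simp

end Pool.Agent.L7h46.AV
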